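import Pool.Agent.Lib.MP_b5021c_nt.IfaceE2

/-!
# MP_b5021c_nt, board b5, row E2_TRM: masses for a load of type A into class `V(1)`
-/

namespace Pool.Agent.B5.H65

open scoped LaurentPolynomial Topology
open Polynomial Pool.Agent.B5

/-- A product of elements of Mahler measure at least one with Mahler measure one: all factors
have Mahler measure one. -/
theorem not_big {O : Type} [CommRing O] [IsDomain O] [IsPrincipalIdealRing O] [Coef O]
    (hM : MmulS) (c : RO O) {n : ℕ} (g : Fin n → RO O) (V : RO O) (hV : V = c * ∏ i, g i)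
    (hV0 : V ≠ 0) (hM1 : M V = 1) : ∀ i, ¬ 1 < M (g i) := by
  obtain ⟨hmul, hone, -⟩ := hM O
  intro i hi
  have h1 : ∏ j, g j = g i * ∏ j ∈ Finset.univ.erase i, g j :=
    (Finset.mul_prod_erase Finset.univ g (Finset.mem_univ i)).symm
  have h2 : V = g i * (c * ∏ j ∈ Finset.univ.erase i, g j) := by
    rw [hV, h1]; ring
  have h3 : g i ≠ 0 := by
    intro h0
    apply hV0
    rw [h2, h0, zero_mul]
  have h4 : c * ∏ j ∈ Finset.univ.erase i, g j ≠ 0 := by
    intro h0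
    apply hV0
    rw [h2, h0, mul_zero]
  have h5 : M V = M (g i) * M (c * ∏ j ∈ Finset.univ.erase i, g j) := by
    rw [← hmul _ _ h3 h4, ← h2]
  have h6 := hone (c * ∏ j ∈ Finset.univ.erase i, g j)
  rw [hM1] at h5
  nlinarith

theorem trm (hFD : FDS) (hE2 : E2S) (hMm : MmulS) (hMV : MVS) (hDus : DusS) (hTpf : TpfS)
    (hTpm : TpmS) (hPsr : PsrS) (hEv : EvRS) : TrmS := by
  intro O _ _ _ _ P L _ _ _ _ _ phi D S eta θ hDD hrk hS hP hA
  obtain ⟨-, hEv2, -, -⟩ := hEv O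
  obtain ⟨hQ0, -, -, -, -, hray⟩ := hE2 O P L phi D hDD hrk
  obtain ⟨hle, -⟩ := hray S hS
  set Q : RO O := D.coeff 0 with hQ
  set V : RO O := D.coeff 0 + (eta : RO O) * D.coeff S with hV
  have hVQ : ∀ z : Circle, ‖evR z (V - Q)‖ ≤ ‖evR z Q‖ := by
    intro z
    have h1 : V - Q = (eta : RO O) * D.coeff S := by rw [hV, hQ]; ring
    rw [h1, map_mul, norm_mul, hEv2 z _ eta.isUnit, one_mul]
    exact hle z
  obtain ⟨a, -, hci, -⟩ := hPsr O θ 1 Q V hP hQ0 le_rfl hA hVQ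
  have hCV : ClassV 1 V := by
    obtain ⟨m, q, e, -, he, -, he1, hez⟩ := hA
    exact ⟨le_rfl, m + 1, e, he, he1, hez⟩
  obtain ⟨hV0, hMV1⟩ := (hMV O).1 1 V hCV
  have hex : ∃ i0 : P, co phi i0 S = 1 := by
    by_contra hno
    push Not at hno
    apply hS.2.1
    apply hDD.inj
    rw [map_zero]
    funext i
    rcases hDD.bin S hS.1 i with h | h
    · exact h
    · exact absurd h (hno i)
  obtain ⟨i0, h⟩ := hex
  have hCC : CC phi D S i0 eta := ⟨hDD, hrk, hS, h, hV0⟩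
  obtain ⟨c, n, G, hF⟩ := hFD O P L phi D S i0 eta h hCC
  have hsmall : ∀ i, ¬ 1 < M ((G i).coeff 0) :=
    not_big hMm c (fun i => (G i).coeff 0) V hF.v00 hV0 hMV1
  obtain ⟨b, f, e, hu, hG, hdual⟩ := hDus O P L phi D S i0 eta h c n G hF hsmall
  obtain ⟨lam, hT, hrank⟩ := hTpf O P L phi D S i0 eta h c n G hF b f e hu hG hdual
  obtain ⟨T, hT0, hTn, hsum, hrk2⟩ := hTpm O (Ker (co phi i0)) 1 lam _ V n b f e hT hCV hci
  refine ⟨i0, n, f, T, hT0, hTn, by omega, ?_⟩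
  intro z hz
  have h1 := hsum z hz
  rw [Nat.cast_one] at h1
  have h2 : (res (Ker (co phi i0)) D).coeff 0 = Q := res_coeff _ D 0
  rw [h2] at h1
  linarith

end Pool.Agent.B5.H65
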