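import Pool.Agent.Lib.MP_b5021c_nt.E2.H27.Tre

/-!
# MP_b5021c_nt, board b5, row E2_TRO: the terminal case for odd rank over `ℤ`
-/

namespace Pool.Agent.B5.H65

open scoped LaurentPolynomial Topology
open Polynomial Pool.Agent.B5

theorem pmn_sum {O : Type} [CommRing O] [Coef O]
    (hEv1 : ∀ (z : Circle) (p : RO O), evL (z : ℂ) p = evR z p) {n : ℕ} (a : ℂ) (ha : ‖a‖ < 1)
    (g : Fin n → RO O) : pmn a (∑ i, g i) = ∑ i, pmn a (g i) := by
  have h1 : Real.circleAverage (fun z => ∑ i, (1 - ‖a‖ ^ 2) / ‖z - a‖ ^ 2 *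
      (evL z (g i)).re) 0 1 = ∑ i, pmn a (g i) := by
    rw [Real.circleAverage_fun_sum]
    · rfl
    · intro i _
      exact H27.ci_pmn a ha _
  rw [← h1, pmn]
  apply H27.ca_congr_fin (E := ∅) Set.finite_empty
  intro z hz _
  let zc : Circle := ⟨z, by simpa [Submonoid.unitSphere] using hz⟩
  have hzc : (zc : ℂ) = z := rfl
  have h3 : ∀ p : RO O, evL z p = evR zc p := fun p => hEv1 zc p
  rw [h3, map_sum, Complex.re_sum, Finset.mul_sum]
  refine Finset.sum_congr rfl fun i _ => ?_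
  rw [h3]

theorem rsh_coeff0 {O : Type} [CommRing O] [Coef O] {L : Type} [AddCommGroup L] (T : AO O L)
    (h : sharp T = T) : rsh (T.coeff 0) = T.coeff 0 := by
  have h1 := sharp_coeff' T 0
  rw [h, neg_zero] at h1
  exact h1.symm

theorem tro (hTrm : TrmS) (hPsz : PszS) (hPmf : PmfS) (hSnt : SntS) (hSno : SnoS) (hE2 : E2S)
    (hEv : EvRS) : TroS := by
  intro P L _ _ _ _ _ phi D S eta θ hDD hrk hS hθ hP hA hodd
  obtain ⟨hEv1, hEv2, hEv3, hEv4⟩ := hEv ℤ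
  obtain ⟨hQ0, -, -, -, -, hray⟩ := hE2 ℤ P L phi D hDD hrk
  obtain ⟨hle, -⟩ := hray S hS
  obtain ⟨i0, n, f, T, hT0, hTn, hrank, hsum⟩ := hTrm ℤ P L phi D S eta θ hDD hrk hS hP hA
  set Q : RO ℤ := D.coeff 0 with hQ
  set V : RO ℤ := D.coeff 0 + (eta : RO ℤ) * D.coeff S with hV
  have hVQ : ∀ z : Circle, ‖evR z (V - Q)‖ ≤ ‖evR z Q‖ := by
    intro z
    have h1 : V - Q = (eta : RO ℤ) * D.coeff S := by rw [hV, hQ]; ring
    rw [h1, map_mul, norm_mul, hEv2 z _ eta.isUnit, one_mul]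
    exact hle z
  have hrs : rsh (∑ i, (T i).coeff 0) = ∑ i, (T i).coeff 0 := by
    rw [map_sum]
    exact Finset.sum_congr rfl fun i _ => rsh_coeff0 (T i) (hTn i).1
  obtain ⟨a, m, t, ha, hpar, hmain⟩ := hPsz θ Q V (∑ i, (T i).coeff 0) hP hQ0 hA hVQ hrs hsum
  have hθ0 : (0 : ℝ) < θ := by linarith
  have ha30 : ‖a‖ ≤ 1 / 30 := by
    rw [ha, inv_eq_one_div]
    exact one_div_le_one_div_of_le (by norm_num) hθ
  have ha15 : ‖a‖ ≤ 1 / 15 := by linarith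
  have ha1 : ‖a‖ < 1 := by linarith
  have ha0 : 0 ≤ ‖a‖ := norm_nonneg a
  rw [pmn_sum hEv1 a ha1] at hmain
  have hsn : ∀ i, 1 + (rk (supp (T i)) : ℝ) ≤ pmn a ((T i).coeff 0) := fun i =>
    hSnt ℤ (Ker (f i)) (T i) (hT0 i) (hTn i) a ha15
  -- the constant coefficients
  have hc0 : ∀ i, 1 + (rk (supp (T i)) : ℤ) ≤ ((T i).coeff 0).coeff 0 := by
    intro i
    have h1 := hSnt ℤ (Ker (f i)) (T i) (hT0 i) (hTn i) 0 (by norm_num)
    obtain ⟨r, hr0, -, hr1, -⟩ := hPmf ℤ ((T i).coeff 0) 0 (by norm_num)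
      (rsh_coeff0 (T i) (hTn i).1)
    rw [hr1, ← Polynomial.coeff_zero_eq_eval_zero, hr0] at h1
    have h2 : (Coef.emb (((T i).coeff 0).coeff 0) : ℂ) = ((((T i).coeff 0).coeff 0 : ℤ) : ℂ) := by
      change (Int.castRingHom ℂ) _ = _
      exact eq_intCast _ _
    rw [h2, Complex.intCast_re] at h1
    exact_mod_cast h1
  have hr0 : (∑ i, (T i).coeff 0).coeff 0 = ∑ i, ((T i).coeff 0).coeff 0 := by
    simp
  rw [hr0] at hpar
  have h2θ : 2 * (θ - θ⁻¹) = 2 * θ - 2 * ‖a‖ := by rw [ha]; ring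
  rw [h2θ] at hmain
  have hfr : (1 - 2 * ‖a‖) ≤ (1 - ‖a‖) / (1 + ‖a‖) := by
    rw [le_div_iff₀ (by linarith)]
    nlinarith
  have hm0 : (0 : ℝ) ≤ (m : ℝ) := Nat.cast_nonneg m
  have hfr0 : 0 ≤ (1 - ‖a‖) / (1 + ‖a‖) := div_nonneg (by linarith) (by linarith)
  have h6 : ∑ i, (1 + (rk (supp (T i)) : ℝ)) ≤ ∑ i, pmn a ((T i).coeff 0) :=
    Finset.sum_le_sum fun i _ => hsn i
  set Sg : ℕ := ∑ i, (1 + rk (supp (T i))) with hSg
  have hSgR : ∑ i, (1 + (rk (supp (T i)) : ℝ)) = (Sg : ℝ) := by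
    rw [hSg]; push_cast; rfl
  have hSgZ : ∑ i, (1 + (rk (supp (T i)) : ℤ)) = (Sg : ℤ) := by
    rw [hSg]; push_cast; rfl
  rw [hSgR] at h6
  rcases Nat.lt_or_ge Sg (Module.finrank ℤ L) with hlt | hge
  · have hd : Module.finrank ℤ L = 1 + Sg := by omega
    have hdR : (Module.finrank ℤ L : ℝ) = 1 + (Sg : ℝ) := by rw [hd]; push_cast; rfl
    rcases Nat.eq_zero_or_pos m with hm | hm
    · -- m = 0
      have h7 : ∃ i, 2 + (rk (supp (T i)) : ℤ) ≤ ((T i).coeff 0).coeff 0 := by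
        by_contra hno
        push Not at hno
        have h8 : ∑ i, ((T i).coeff 0).coeff 0 = ∑ i, (1 + (rk (supp (T i)) : ℤ)) := by
          refine Finset.sum_congr rfl fun i _ => ?_
          have h9 := hno i
          have h10 := hc0 i
          omega
        rw [h8, hSgZ, hm] at hpar
        obtain ⟨k, hk⟩ := hodd
        omega
      obtain ⟨i, hi⟩ := h7
      have h8 := hSno (Ker (f i)) (T i) (hT0 i) (hTn i) a ha30 hi
      have h9 : (Sg : ℝ) + (1 - 2 * ‖a‖) ≤ ∑ j, pmn a ((T j).coeff 0) := by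
        rw [← hSgR, ← Finset.add_sum_erase Finset.univ _ (Finset.mem_univ i),
          ← Finset.add_sum_erase Finset.univ (fun j => pmn a ((T j).coeff 0)) (Finset.mem_univ i)]
        have h11 : ∑ j ∈ Finset.univ.erase i, (1 + (rk (supp (T j)) : ℝ)) ≤
            ∑ j ∈ Finset.univ.erase i, pmn a ((T j).coeff 0) :=
          Finset.sum_le_sum fun j _ => hsn j
        linarith
      rw [hm, Nat.cast_zero, mul_zero] at hmain
      linarith
    · have hm1 : (1 : ℝ) ≤ (m : ℝ) := by exact_mod_cast hm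
      have h7 : (1 - ‖a‖) / (1 + ‖a‖) * 1 ≤ (1 - ‖a‖) / (1 + ‖a‖) * (m : ℝ) :=
        mul_le_mul_of_nonneg_left hm1 hfr0
      linarith
  · have h7 : (Module.finrank ℤ L : ℝ) ≤ (Sg : ℝ) := by exact_mod_cast hge
    have h8 : 0 ≤ (1 - ‖a‖) / (1 + ‖a‖) * (m : ℝ) := mul_nonneg hfr0 hm0
    linarith

end Pool.Agent.B5.H65
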